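import Pool.Agent.Helper8.SR.GoodGenMain
import Pool.Agent.Helper50.SR.CommonCert
import Pool.Agent.Helper6.SR.CertValuation

/-!
# SR-D13: the function with prescribed local classes modulo `ℓ`-th powers
-/

set_option autoImplicit false
set_option linter.unusedVariables false
set_option linter.unusedSectionVars false
open scoped Pointwise
open Polynomial Pool.Agent.Helper54.PW

namespace Pool.Agent.Helper54.SR

private theorem h34f_Un_mul {L : Type} [Field L] {A : ValuationSubring L} {x y : L}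
    (hx : Un A x) (hy : Un A y) : Un A (x * y) :=
  ⟨mul_ne_zero hx.1 hy.1, A.mul_mem _ _ hx.2.1 hy.2.1, by
    rw [mul_inv]; exact A.mul_mem _ _ hx.2.2 hy.2.2⟩

private theorem h34f_Un_inv {L : Type} [Field L] {A : ValuationSubring L} {x : L}
    (hx : Un A x) : Un A x⁻¹ :=
  ⟨inv_ne_zero hx.1, hx.2.2, by rw [inv_inv]; exact hx.2.1⟩

private theorem h34f_Un_of {L : Type} [Field L] {A : ValuationSubring L} {x : L}
    (hx : x ∈ A) (hx' : x ∉ A.nonunits) : Un A x := by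
  rw [ValuationSubring.mem_nonunits_iff_or, not_or, not_not] at hx'
  exact ⟨hx'.1, hx, hx'.2⟩

private theorem h34f_Gen_unit {L : Type} [Field L] {A : ValuationSubring L} {π a b : L}
    (h : Gen A π a b) (ha : a ∈ A) (hb : b ∈ A) (hu : a ∉ A.nonunits ∨ b ∉ A.nonunits) :
    Un A π := by
  obtain ⟨h1, h2, h3, h4⟩ := h
  have hπ : π ∈ A := by
    rcases h1 with rfl | rfl
    · exact ha
    · exact hb
  refine ⟨h2, hπ, ?_⟩
  rcases hu with hu | hu
  · have h5 := h34f_Un_of ha hu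
    have h6 : π⁻¹ = a / π * a⁻¹ := by
      have := h5.1
      field_simp
    rw [h6]
    exact A.mul_mem _ _ h3 h5.2.2
  · have h5 := h34f_Un_of hb hu
    have h6 : π⁻¹ = b / π * b⁻¹ := by
      have := h5.1
      field_simp
    rw [h6]
    exact A.mul_mem _ _ h4 h5.2.2

private theorem h34f_Gen_left {L : Type} [Field L] {A : ValuationSubring L} {π a b : L}
    (h : Gen A π a b) (ha : a ≠ 0) (hba : b / a ∈ A) : Un A (a / π) := by
  obtain ⟨h1, h2, h3, h4⟩ := h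
  refine ⟨div_ne_zero ha h2, h3, ?_⟩
  rw [inv_div]
  rcases h1 with rfl | rfl
  · rw [div_self h2]
    exact A.one_mem
  · exact hba

section places
variable {k F : Type} [Field k] [IsAlgClosed k] [Field F] [Algebra (RatFunc k) F]
  [FiniteDimensional (RatFunc k) F] [IsGalois (RatFunc k) F]

private theorem h34f_pk_X : pk k F X = tX k F := by
  simp [pk, tX, RatFunc.algebraMap_X]

private theorem h34f_pk_C (c : k) : pk k F (C c) = co k F c := by
  simp [pk, co, RatFunc.algebraMap_C]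

private theorem h34f_pk_mem (A : ValuationSubring F) (hA : IsPl k A) (hX : tX k F ∈ A)
    (B : k[X]) : pk k F B ∈ A := by
  induction B using Polynomial.induction_on' with
  | add p q hp hq =>
    rw [map_add]
    exact A.add_mem _ _ hp hq
  | monomial n c =>
    have h1 : pk k F (monomial n c) = co k F c * tX k F ^ n := by
      rw [← C_mul_X_pow_eq_monomial, map_mul, map_pow, h34f_pk_X, h34f_pk_C]
    rw [h1]
    exact A.mul_mem _ _ (hA.2 c) (pow_mem hX n)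

/-- SR-D13 -/
theorem exists_function {ℓ : ℕ} (hℓ0 : 0 < ℓ) (hℓ : (ℓ : k) ≠ 0) (hunr : UnrLine k F)
    (A₁ A₂ : ValuationSubring F) (h₁ : IsPl k A₁) (h₂ : IsPl k A₂) (c₁ c₂ : k)
    (hc₁ : Over k A₁ c₁) (hc₂ : Over k A₂ c₂) (hne : A₁ ≠ A₂) :
    ∃ g : F, g ≠ 0 ∧
      (∀ A, IsPl k A → tX k F ∈ A → A ≠ A₁ → A ≠ A₂ → ∃ x : F, x ≠ 0 ∧ Un A (g * x ^ ℓ)) ∧
      (∃ x : F, x ≠ 0 ∧ Un A₁ (g * x ^ ℓ * (tX k F - co k F c₁)⁻¹)) ∧
      (∃ x : F, x ≠ 0 ∧ Un A₂ (g * x ^ ℓ * (tX k F - co k F c₂))) := by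
  obtain ⟨n, f, y, η₁, η₂, i₁, i₂, hf, hn, hirr, hj, hyA, hη₁, hη₂, hf₁, hf₂, hA1, hA2, hd1, hd2⟩ :=
    exists_good_generator hunr A₁ A₂ h₁ h₂ c₁ c₂ hc₁ hc₂
  obtain ⟨u, v, hC1, hC2⟩ := exists_common_cert hℓ0 hℓ f hf hn hirr c₁ c₂ η₁ η₂ hη₁ hη₂ hf₁ hf₂
    i₁ i₂
  have hnpos : 0 < f.natDegree := by
    rw [hn]
    exact Fin.pos i₁
  obtain ⟨g, hg0, hg⟩ := cert_valuation hℓ0 f hf (eval₂RingHom (pk k F) y) hj c₁ (η₁ i₁) c₂
    (η₂ i₂) u v hC1 hC2 hnpos
  -- the images of the generators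
  have ja : ∀ c : k, eval₂RingHom (pk k F) y (C (X - C c)) = tX k F - co k F c := by
    intro c
    rw [coe_eval₂RingHom, eval₂_C, map_sub, h34f_pk_X, h34f_pk_C]
  have jb : ∀ c : k, eval₂RingHom (pk k F) y (X - C (C c)) = y - co k F c := by
    intro c
    rw [coe_eval₂RingHom, eval₂_sub, eval₂_X, eval₂_C, h34f_pk_C]
  have hjmem : ∀ A : ValuationSubring F, IsPl k A → tX k F ∈ A →
      ∀ B, eval₂RingHom (pk k F) y B ∈ A := by
    intro A hA hX B
    rw [coe_eval₂RingHom, eval₂_eq_sum_range]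
    refine sum_mem fun i _ => A.mul_mem _ _ (h34f_pk_mem A hA hX _) (pow_mem (hyA A hA hX) i)
  have hamem : ∀ A : ValuationSubring F, IsPl k A → tX k F ∈ A → ∀ c : k,
      tX k F - co k F c ∈ A := fun A hA hX c => A.sub_mem hX (hA.2 c)
  have hbmem : ∀ A : ValuationSubring F, IsPl k A → tX k F ∈ A → ∀ c : k,
      y - co k F c ∈ A := fun A hA hX c => A.sub_mem (hyA A hA hX) (hA.2 c)
  -- units
  have hu1 : ∀ A : ValuationSubring F, IsPl k A → A ≠ A₁ →
      tX k F - co k F c₁ ∉ A.nonunits ∨ y - co k F (η₁ i₁) ∉ A.nonunits := by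
    intro A hA hne1
    by_cases ho : Over k A c₁
    · right
      intro h
      exact hne1 ((hA1 A hA ho).1 h)
    · left
      exact ho
  have hu2 : ∀ A : ValuationSubring F, IsPl k A → A ≠ A₂ →
      tX k F - co k F c₂ ∉ A.nonunits ∨ y - co k F (η₂ i₂) ∉ A.nonunits := by
    intro A hA hne1
    by_cases ho : Over k A c₂
    · right
      intro h
      exact hne1 ((hA2 A hA ho).1 h)
    · left
      exact ho
  have hX : ∀ (A : ValuationSubring F) (c : k), IsPl k A → Over k A c → tX k F ∈ A := by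
    intro A c hA ho
    have h3 : tX k F = (tX k F - co k F c) + co k F c := by ring
    rw [h3]
    exact A.add_mem _ _ (A.nonunits_subset ho) (hA.2 c)
  have hne0 : ∀ c : k, tX k F - co k F c ≠ 0 := by
    intro c h
    have h3 : tX k F - co k F c = pk k F (X - C c) := by
      rw [map_sub, h34f_pk_X, h34f_pk_C]
    rw [h3] at h
    have h4 : Function.Injective (pk k F) := by
      unfold pk
      rw [RingHom.coe_comp]
      exact (algebraMap (RatFunc k) F).injective.comp (RatFunc.algebraMap_injective k)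
    exact X_sub_C_ne_zero c (h4 (by rw [h, map_zero]))
  refine ⟨g, hg0, ?_, ?_, ?_⟩
  · intro A hA hXA hne1 hne2
    obtain ⟨x, π₁, π₂, hx, hG1, hG2, hU⟩ := hg A (hjmem A hA hXA)
    rw [ja, jb] at hG1 hG2
    have v1 := h34f_Gen_unit hG1 (hamem A hA hXA _) (hbmem A hA hXA _) (hu1 A hA hne1)
    have v2 := h34f_Gen_unit hG2 (hamem A hA hXA _) (hbmem A hA hXA _) (hu2 A hA hne2)
    refine ⟨x, hx, ?_⟩
    have h3 := h34f_Un_mul hU (h34f_Un_mul v1 (h34f_Un_inv v2))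
    have h4 : g * x ^ ℓ * π₂ / π₁ * (π₁ * π₂⁻¹) = g * x ^ ℓ := by
      have := v1.1
      have := v2.1
      field_simp
    rwa [h4] at h3
  · have hXA := hX A₁ c₁ h₁ hc₁
    obtain ⟨x, π₁, π₂, hx, hG1, hG2, hU⟩ := hg A₁ (hjmem A₁ h₁ hXA)
    rw [ja, jb] at hG1 hG2
    have v1 := h34f_Gen_left hG1 (hne0 c₁) hd1
    have v2 := h34f_Gen_unit hG2 (hamem A₁ h₁ hXA _) (hbmem A₁ h₁ hXA _) (hu2 A₁ h₁ hne)
    refine ⟨x, hx, ?_⟩
    have h3 := h34f_Un_mul hU (h34f_Un_mul (h34f_Un_inv v1) (h34f_Un_inv v2))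
    have h4 : g * x ^ ℓ * π₂ / π₁ * (((tX k F - co k F c₁) / π₁)⁻¹ * π₂⁻¹) =
        g * x ^ ℓ * (tX k F - co k F c₁)⁻¹ := by
      have := hG1.2.1
      have := v2.1
      have := hne0 c₁
      field_simp
    rwa [h4] at h3
  · have hXA := hX A₂ c₂ h₂ hc₂
    obtain ⟨x, π₁, π₂, hx, hG1, hG2, hU⟩ := hg A₂ (hjmem A₂ h₂ hXA)
    rw [ja, jb] at hG1 hG2
    have v1 := h34f_Gen_unit hG1 (hamem A₂ h₂ hXA _) (hbmem A₂ h₂ hXA _) (hu1 A₂ h₂ hne.symm)
    have v2 := h34f_Gen_left hG2 (hne0 c₂) hd2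
    refine ⟨x, hx, ?_⟩
    have h3 := h34f_Un_mul hU (h34f_Un_mul v1 v2)
    have h4 : g * x ^ ℓ * π₂ / π₁ * (π₁ * ((tX k F - co k F c₂) / π₂)) =
        g * x ^ ℓ * (tX k F - co k F c₂) := by
      have := hG2.2.1
      have := v1.1
      field_simp
    rwa [h4] at h3

end places

end Pool.Agent.Helper54.SR
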