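import Pool.Agent.Helper54.SR.Defs
import Pool.Agent.Helper18.PW.Places1

/-!
# SR-L2a: the fundamental character of the decomposition group
-/

set_option autoImplicit false
set_option linter.unusedVariables false
set_option linter.unusedSectionVars false
open scoped Pointwise
open Polynomial Pool.Agent.Helper54.PW

namespace Pool.Agent.Helper54.SR

section local'
variable {p : ℕ} [Fact p.Prime] {k L : Type} [Field k] [IsAlgClosed k] [CharP k p] [Field L]
  [Algebra (RatFunc k) L] [FiniteDimensional (RatFunc k) L] [IsGalois (RatFunc k) L]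

private theorem h34_res (A : ValuationSubring L) (hA : IsPl k A) (a : L) (ha : a ∈ A) :
    ∃ c : k, a - co k L c ∈ A.nonunits := by
  let _ : Algebra k L := ((algebraMap (RatFunc k) L).comp (algebraMap k (RatFunc k))).toAlgebra
  have : IsScalarTower k (RatFunc k) L := IsScalarTower.of_algebraMap_eq fun _ => rfl
  exact residue (ff_of_algebraic k L) A hA a ha

private theorem h34_val_co (A : ValuationSubring L) (hA : IsPl k A) (c : k) (hc : c ≠ 0) :
    A.valuation (co k L c) = 1 := by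
  let _ : Algebra k L := ((algebraMap (RatFunc k) L).comp (algebraMap k (RatFunc k))).toAlgebra
  exact Places1.val_const A hA.2 hc

private theorem h34_co_mul (c d : k) : co k L (c * d) = co k L c * co k L d := by
  simp [co]

private theorem h34_co_sub (c d : k) : co k L (c - d) = co k L c - co k L d := by
  simp [co]

private theorem h34_co_inv (c : k) : co k L c⁻¹ = (co k L c)⁻¹ := by
  simp [co]

private theorem h34_co_zpow (c : k) (n : ℤ) : co k L (c ^ n) = co k L c ^ n := by
  simp [co]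

private theorem h34_co_ne (c : k) (hc : c ≠ 0) : co k L c ≠ 0 := by
  unfold co
  rw [_root_.map_ne_zero, _root_.map_ne_zero]
  exact hc

private theorem h34_unique (A : ValuationSubring L) (hA : IsPl k A) (x : L) (c d : k)
    (hc : x - co k L c ∈ A.nonunits) (hd : x - co k L d ∈ A.nonunits) : c = d := by
  by_contra hne
  have h1 := h34_val_co (L := L) A hA (c - d) (sub_ne_zero.2 hne)
  have h2 : co k L (c - d) ∈ A.nonunits := by
    rw [h34_co_sub]
    have : co k L c - co k L d = (x - co k L d) - (x - co k L c) := by ring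
    rw [this]
    exact sub_mem hd hc
  rw [ValuationSubring.mem_nonunits_iff, h1] at h2
  exact lt_irrefl _ h2

private theorem h34_val (A : ValuationSubring L) (hA : IsPl k A) (x : L) (c : k) (hc0 : c ≠ 0)
    (hc : x - co k L c ∈ A.nonunits) : A.valuation x = 1 := by
  have h1 := h34_val_co (L := L) A hA c hc0
  rw [ValuationSubring.mem_nonunits_iff] at hc
  have h2 : x = co k L c + (x - co k L c) := by ring
  rw [h2, A.valuation.map_add_eq_of_lt_left]
  · exact h1
  · rw [h1]; exact hc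

private theorem h34_mul (A : ValuationSubring L) (hA : IsPl k A) (x y : L) (c d : k)
    (hc : x - co k L c ∈ A.nonunits) (hd : y - co k L d ∈ A.nonunits) :
    x * y - co k L (c * d) ∈ A.nonunits := by
  have hy : y ∈ A := by
    have h1 : y = (y - co k L d) + co k L d := by ring
    rw [h1]
    exact A.add_mem _ _ (A.nonunits_subset hd) (hA.2 d)
  have h2 : x * y - co k L (c * d) = (x - co k L c) * y + co k L c * (y - co k L d) := by
    rw [h34_co_mul]; ring
  rw [h2]
  refine add_mem ?_ ?_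
  · rw [ValuationSubring.mem_nonunits_iff] at hc ⊢
    rw [map_mul]
    exact mul_lt_one_of_lt_of_le hc ((A.valuation_le_one_iff _).2 hy)
  · rw [ValuationSubring.mem_nonunits_iff] at hd ⊢
    rw [map_mul]
    rw [mul_comm]
    exact mul_lt_one_of_lt_of_le hd ((A.valuation_le_one_iff _).2 (hA.2 c))

private theorem h34_inv (A : ValuationSubring L) (hA : IsPl k A) (x : L) (c : k) (hc0 : c ≠ 0)
    (hc : x - co k L c ∈ A.nonunits) : x⁻¹ - co k L c⁻¹ ∈ A.nonunits := by
  have hvx := h34_val A hA x c hc0 hc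
  have hvc := h34_val_co (L := L) A hA c hc0
  have hx0 : x ≠ 0 := by
    rintro rfl
    rw [map_zero] at hvx
    exact zero_ne_one hvx
  have h1 : x⁻¹ - co k L c⁻¹ = -(x - co k L c) * (x⁻¹ * (co k L c)⁻¹) := by
    rw [h34_co_inv]
    have := h34_co_ne (L := L) c hc0
    field_simp
    ring
  rw [h1]
  rw [ValuationSubring.mem_nonunits_iff] at hc ⊢
  rw [map_mul, map_mul, map_inv₀, map_inv₀, hvx, hvc, Valuation.map_neg]
  simpa using hc

private theorem h34_zpow (A : ValuationSubring L) (hA : IsPl k A) (x : L) (c : k) (hc0 : c ≠ 0)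
    (hc : x - co k L c ∈ A.nonunits) (n : ℤ) : x ^ n - co k L (c ^ n) ∈ A.nonunits := by
  have hN : ∀ m : ℕ, x ^ m - co k L (c ^ m) ∈ A.nonunits := by
    intro m
    induction m with
    | zero =>
      have : x ^ 0 - co k L (c ^ 0) = 0 := by simp [co]
      rw [this, ValuationSubring.mem_nonunits_iff, map_zero]
      exact zero_lt_one
    | succ m ih =>
      rw [pow_succ, pow_succ]
      exact h34_mul A hA _ _ _ _ ih hc
  obtain ⟨m, rfl | rfl⟩ := n.eq_nat_or_neg
  · have := hN m
    rw [zpow_natCast, zpow_natCast]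
    exact this
  · rw [zpow_neg, zpow_neg, zpow_natCast, zpow_natCast]
    exact h34_inv A hA _ _ (pow_ne_zero _ hc0) (hN m)

private theorem h34_stab (A : ValuationSubring L) (σ : L ≃ₐ[RatFunc k] L) (hσ : σ • A = A)
    (x : L) (hx : x ∈ A) : σ x ∈ A := by
  have h2 : σ • x ∈ σ • A := ValuationSubring.smul_mem_pointwise_smul_iff.2 hx
  rw [hσ] at h2
  exact h2

private theorem h34_stab' (A : ValuationSubring L) (σ : L ≃ₐ[RatFunc k] L) (hσ : σ • A = A)
    (x : L) (hx : x ∈ A.nonunits) : σ x ∈ A.nonunits := by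
  rw [ValuationSubring.mem_nonunits_iff_or] at hx ⊢
  rcases hx with hc | hc
  · left; rw [hc, map_zero]
  · right
    intro h
    apply hc
    rw [← map_inv₀] at h
    have h2 : σ • x⁻¹ ∈ σ • A := by rw [hσ]; exact h
    exact ValuationSubring.smul_mem_pointwise_smul_iff.1 h2

private theorem h34_sub (A : ValuationSubring L) (hA : IsPl k A) (σ : L ≃ₐ[RatFunc k] L)
    (hσ : σ • A = A) (x : L) (c : k) (hx : x - co k L c ∈ A.nonunits) :
    σ x - co k L c ∈ A.nonunits := by
  have h1 := h34_stab' A σ hσ _ hx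
  have h2 : σ (x - co k L c) = σ x - co k L c := by
    rw [map_sub]
    unfold co
    rw [AlgEquiv.commutes]
  rwa [h2] at h1

/-- `π` divides every nonunit -/
private theorem h34_div (A : ValuationSubring L) (π : L) (hπ : Unif A π) (x : L)
    (hx : x ∈ A.nonunits) : x / π ∈ A := by
  by_cases hx0 : x = 0
  · rw [hx0, zero_div]
    exact A.zero_mem
  obtain ⟨n, hn0, hn1, hn2⟩ := hπ.2.2 x hx0
  have hπ0 := hπ.1
  have hπA : π ∈ A := A.nonunits_subset hπ.2.1
  have hn : n ≤ -1 := by
    by_contra hcon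
    push Not at hcon
    obtain ⟨m, rfl⟩ := Int.eq_ofNat_of_zero_le (by omega : 0 ≤ n)
    rw [zpow_natCast] at hn1 hn2
    have h1 : A.valuation (x * π ^ m) < 1 := by
      rw [map_mul]
      exact mul_lt_one_of_lt_of_le (A.mem_nonunits_iff.1 hx)
        ((A.valuation_le_one_iff _).2 (pow_mem hπA m))
    have h2 := (A.valuation_le_one_iff _).2 hn2
    rw [map_inv₀] at h2
    have h3 : 0 < A.valuation (x * π ^ m) :=
      zero_lt_iff.2 ((_root_.map_ne_zero _).2 (mul_ne_zero hx0 (pow_ne_zero _ hπ0)))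
    exact absurd ((inv_le_one₀ h3).1 h2) (not_le.2 h1)
  obtain ⟨m, hm⟩ := Int.eq_ofNat_of_zero_le (by omega : 0 ≤ -n - 1)
  have h4 : x / π = (x * π ^ n) * π ^ m := by
    have hm' : (m : ℤ) = -n - 1 := hm.symm
    rw [← zpow_natCast, hm', mul_assoc, ← zpow_add₀ hπ0, div_eq_mul_inv]
    congr 1
    rw [show n + (-n - 1) = -1 by ring, zpow_neg_one]
  rw [h4]
  exact A.mul_mem _ _ hn1 (pow_mem hπA m)

/-- SR-L2a -/
theorem exists_theta (A : ValuationSubring L) (hA : IsPl k A) (π : L) (hπ : Unif A π) :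
    ∃ θ : (L ≃ₐ[RatFunc k] L) → k, (∀ σ, σ • A = A → θ σ ≠ 0) ∧
      (∀ σ τ, σ • A = A → τ • A = A → θ (σ * τ) = θ σ * θ τ) ∧
      (∀ σ, σ • A = A → σ π / π - co k L (θ σ) ∈ A.nonunits) ∧
      ∀ σ, σ • A = A → ∀ (x : L) (n : ℤ), x ≠ 0 → Un A (x * π ^ n) →
        σ x / x - co k L (θ σ ^ (-n)) ∈ A.nonunits := by
  classical
  have hπ0 := hπ.1
  have hinA : ∀ σ : L ≃ₐ[RatFunc k] L, σ • A = A → σ π / π ∈ A := fun σ hσ =>
    h34_div A π hπ _ (h34_stab' A σ hσ π hπ.2.1)
  have hinA' : ∀ σ : L ≃ₐ[RatFunc k] L, σ • A = A → (σ π / π)⁻¹ ∈ A := by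
    intro σ hσ
    have hσ' : σ⁻¹ • A = A := by rw [inv_smul_eq_iff, hσ]
    have h1 := h34_stab A σ hσ _ (hinA σ⁻¹ hσ')
    rw [map_div₀] at h1
    have h2 : σ (σ⁻¹ π) = π := AlgEquiv.apply_symm_apply σ π
    rw [h2] at h1
    rw [inv_div]
    exact h1
  have hex : ∀ σ : L ≃ₐ[RatFunc k] L, ∃ c : k, σ • A = A →
      σ π / π - co k L c ∈ A.nonunits := by
    intro σ
    by_cases hσ : σ • A = A
    · obtain ⟨c, hc⟩ := h34_res A hA _ (hinA σ hσ)
      exact ⟨c, fun _ => hc⟩
    · exact ⟨0, fun h => absurd h hσ⟩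
  choose θ hθ using hex
  have hθ0 : ∀ σ, σ • A = A → θ σ ≠ 0 := by
    intro σ hσ h0
    have h1 := hθ σ hσ
    rw [h0] at h1
    have h2 : co k L 0 = 0 := by simp [co]
    rw [h2, sub_zero, ValuationSubring.mem_nonunits_iff] at h1
    have h3 := (A.valuation_le_one_iff _).2 (hinA' σ hσ)
    rw [map_inv₀] at h3
    have hne : σ π / π ≠ 0 := div_ne_zero ((_root_.map_ne_zero σ).2 hπ0) hπ0
    have h4 : 0 < A.valuation (σ π / π) := zero_lt_iff.2 ((_root_.map_ne_zero _).2 hne)
    exact absurd ((inv_le_one₀ h4).1 h3) (not_le.2 h1)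
  refine ⟨θ, hθ0, ?_, hθ, ?_⟩
  · intro σ τ hσ hτ
    have hστ : (σ * τ) • A = A := by rw [mul_smul, hτ, hσ]
    have h1 := h34_sub A hA σ hσ _ _ (hθ τ hτ)
    have h2 := h34_mul A hA _ _ _ _ (hθ σ hσ) h1
    have h3 : σ π / π * σ (τ π / π) = (σ * τ) π / π := by
      rw [map_div₀, AlgEquiv.mul_apply]
      have hσπ : σ π ≠ 0 := (_root_.map_ne_zero σ).2 hπ0
      field_simp
    rw [h3] at h2
    exact h34_unique A hA _ _ _ (hθ _ hστ) h2
  · intro σ hσ x n hx hu
    obtain ⟨hu0, hu1, hu2⟩ := hu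
    -- the unit
    have h1 : σ (x * π ^ n) / (x * π ^ n) - co k L 1 ∈ A.nonunits := by
      obtain ⟨c, hc⟩ := h34_res A hA _ hu1
      have hc0 : c ≠ 0 := by
        rintro rfl
        have h2 : co k L 0 = 0 := by simp [co]
        rw [h2, sub_zero, ValuationSubring.mem_nonunits_iff] at hc
        have h3 := (A.valuation_le_one_iff _).2 hu2
        rw [map_inv₀] at h3
        have h4 : 0 < A.valuation (x * π ^ n) := zero_lt_iff.2 ((_root_.map_ne_zero _).2 hu0)
        exact absurd ((inv_le_one₀ h4).1 h3) (not_le.2 hc)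
      have h5 := h34_mul A hA _ _ _ _ (h34_sub A hA σ hσ _ _ hc) (h34_inv A hA _ _ hc0 hc)
      rw [mul_inv_cancel₀ hc0, ← div_eq_mul_inv] at h5
      exact h5
    have h2 := h34_zpow A hA _ _ (hθ0 σ hσ) (hθ σ hσ) (-n)
    have h3 := h34_mul A hA _ _ _ _ h1 h2
    rw [one_mul] at h3
    have h4 : σ (x * π ^ n) / (x * π ^ n) * (σ π / π) ^ (-n) = σ x / x := by
      rw [map_mul, map_zpow₀, div_zpow, zpow_neg, zpow_neg]
      have hσπ : (σ π) ^ n ≠ 0 := zpow_ne_zero _ ((_root_.map_ne_zero σ).2 hπ0)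
      have hπn : π ^ n ≠ 0 := zpow_ne_zero _ hπ0
      field_simp
    rw [h4] at h3
    exact h3

end local'

end Pool.Agent.Helper54.SR
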